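import Pool.Agent.Q35.TT.Stm3

/-!
# Project TT (helper35), jobs ART and NAT: the local bounds for all quadratic twists
-/

set_option autoImplicit false

open Pool.Agent.Y720.MZ Height AdmissibleAbsValues

namespace Pool.Agent.Q65.TT

open Pool.Agent.Q35.TT

/-- multiples of points and field homomorphisms -/
theorem torW_map {K Ω : Type} [Field K] [Field Ω] [DecidableEq K] [DecidableEq Ω] (φ : K →+* Ω)
    (W : WeierstrassCurve K) {x y : K} {n : ℕ} (h : W.toAffine.Nonsingular x y)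
    (hn : n • (WeierstrassCurve.Affine.Point.some x y h : W.toAffine.Point) = 0) :
    ∃ h' : (W.map φ).toAffine.Nonsingular (φ x) (φ y),
      n • (WeierstrassCurve.Affine.Point.some (φ x) (φ y) h' : (W.map φ).toAffine.Point) = 0 := by
  let _ : Algebra K Ω := φ.toAlgebra
  have h1 : n • (WeierstrassCurve.Affine.Point.some x y h : (W.toAffine.baseChange K).toAffine.Point) = 0 := hn
  have h2 := congrArg (WeierstrassCurve.Affine.Point.map (W' := W.toAffine) (Algebra.ofId K Ω)) h1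
  rw [map_nsmul, WeierstrassCurve.Affine.Point.map_zero, WeierstrassCurve.Affine.Point.map_some] at h2
  exact ⟨_, h2⟩

theorem torP_map {K Ω : Type} [Field K] [Field Ω] (φ : K →+* Ω) {a b c x y : K} {n : ℕ}
    (h : TorP a b c x y n) : TorP (φ a) (φ b) (φ c) (φ x) (φ y) n := by
  let _ : DecidableEq K := Classical.decEq K
  let _ : DecidableEq Ω := Classical.decEq Ω
  obtain ⟨h1, h2⟩ := h
  obtain ⟨h3, h4⟩ := torW_map φ (cv a b c) h1 h2
  have e : (cv a b c).map φ = cv (φ a) (φ b) (φ c) := by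
    simp [cv, WeierstrassCurve.map]
  generalize (cv a b c).map φ = W at h3 h4 e
  subst e
  exact ⟨h3, h4⟩

theorem dsc_tw {K : Type} [Field K] (a b c d : K) :
    dsc (d * a) (d ^ 2 * b) (d ^ 3 * c) = d ^ 6 * dsc a b c := by
  unfold dsc
  ring

theorem dsc_map {K Ω : Type} [Field K] [Field Ω] (φ : K →+* Ω) (a b c : K) :
    dsc (φ a) (φ b) (φ c) = φ (dsc a b c) := by
  unfold dsc
  rw [map_add, map_sub, map_sub, map_sub, map_mul, map_mul, map_mul, map_mul, map_mul, map_mul, map_mul,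
    map_mul, map_pow, map_pow, map_pow, map_pow, map_pow, map_ofNat, map_ofNat, map_ofNat]

/-- from the curves over an algebraically closed field to all twists -/
theorem lbt_of_lb (hT : S_TRN) {K Ω : Type} [Field K] [Field Ω] [CharZero Ω] [IsAlgClosed Ω]
    (v : AbsoluteValue K ℝ) (w : AbsoluteValue Ω ℝ) (φ : K →+* Ω) (hw : ∀ x, w (φ x) = v x)
    {A B : ℝ} {κ : ℕ} (h : LB w A B κ) : LBT v A B κ := by
  intro a b c x y d ha hb hc hD hd n hn hP
  obtain ⟨u, hu⟩ := IsAlgClosed.exists_pow_nat_eq (φ d) (n := 2) (by norm_num)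
  have hφd : φ d ≠ 0 := (map_ne_zero φ).2 hd
  have hu0 : u ≠ 0 := by
    rintro rfl
    apply hφd
    rw [← hu]
    norm_num
  have h1 := torP_map φ hP
  have hD' : dsc (φ a) (φ b) (φ c) ≠ 0 := by
    rw [dsc_map]
    exact (map_ne_zero φ).2 hD
  have h2 := hT Ω (φ (d * a)) (φ (d ^ 2 * b)) (φ (d ^ 3 * c)) (φ x) (φ y) u 0 n hu0 (by
    rw [map_mul, map_mul, map_mul, map_pow, map_pow, dsc_tw]
    exact mul_ne_zero (pow_ne_zero _ hφd) hD') h1
  have e1 : (φ (d * a) + 3 * 0) / u ^ 2 = φ a := by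
    rw [map_mul, hu]
    field_simp
    ring
  have e2 : (φ (d ^ 2 * b) + 2 * 0 * φ (d * a) + 3 * 0 ^ 2) / u ^ 4 = φ b := by
    have : u ^ 4 = φ d ^ 2 := by rw [← hu]; ring
    rw [map_mul, map_pow, this]
    field_simp
    ring
  have e3 : (φ (d ^ 3 * c) + 0 * φ (d ^ 2 * b) + 0 ^ 2 * φ (d * a) + 0 ^ 3) / u ^ 6 = φ c := by
    have : u ^ 6 = φ d ^ 3 := by rw [← hu]; ring
    rw [map_mul, map_pow, this]
    field_simp
    ring
  rw [e1, e2, e3, sub_zero] at h2
  have h3 := h (φ a) (φ b) (φ c) _ _ (by rw [hw]; exact ha) (by rw [hw]; exact hb) (by rw [hw]; exact hc)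
    hD' n hn h2
  rw [map_div₀, hw, hu, hw] at h3
  rwa [div_le_iff₀ (v.pos hd)] at h3

/-- **JOB ART** -/
theorem art (h : S_ARC) (h2 : S_TRN) : S_ART := by
  intro K _ _ A hA
  obtain ⟨B, hB, hLB⟩ := h A hA
  refine ⟨B, hB, fun v hv => ?_⟩
  have hv' : v ∈ NumberField.multisetInfinitePlace K := hv
  rw [NumberField.mem_multisetInfinitePlace] at hv'
  obtain ⟨w, rfl⟩ := (NumberField.isInfinitePlace_iff v).1 hv'
  refine lbt_of_lb h2 _ (NormedField.toAbsoluteValue ℂ) w.embedding (fun x => ?_)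
    (hLB ℂ (NormedField.toAbsoluteValue ℂ) fun n => ?_)
  · exact NumberField.InfinitePlace.norm_embedding_eq w x
  · change ‖(n : ℂ)‖ = n
    exact Complex.norm_natCast n

/-- **JOB NAT** -/
theorem nat_ (h1 : S_NAR) (h2 : S_EXT) (h3 : S_TRN) : S_NAT := by
  intro K _ _ v hv hp A hA
  obtain ⟨Ω, _, _, w, φ, hw, hφ⟩ := h2 K v hv
  have : CharZero Ω := charZero_of_injective_ringHom φ.injective
  obtain ⟨B, hB, hLB⟩ := h1 Ω w hw (by
    obtain ⟨p, hpp, hp1⟩ := hp
    refine ⟨p, hpp, ?_⟩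
    rw [← map_natCast φ p, hφ]
    exact hp1) A hA
  exact ⟨B, hB, lbt_of_lb h3 v w φ hφ hLB⟩

end Pool.Agent.Q65.TT
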