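import Pool.Agent.Q35.TT.Stm3

/-!
# Project TT (helper35), job TRS: one more direction
-/

set_option autoImplicit false

open MvPolynomial

namespace Pool.Agent.Q65.TT

open Pool.Agent.Q35.TT

theorem eval_sub {K : Type} [Field K] {n : ℕ} (g : MvPolynomial (Fin n) K) (k : Fin n) (c : K)
    (x : Fin n → K) :
    eval x (bind₁ (fun l => if l = k then C c else X l) g) = eval (Function.update x k c) g := by
  rw [← MvPolynomial.coe_aeval_eq_eval, ← MvPolynomial.coe_aeval_eq_eval]
  change aeval x (bind₁ _ g) = aeval (Function.update x k c) g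
  rw [aeval_bind₁]
  congr 2
  funext l
  by_cases h : l = k
  · subst h
    simp
  · simp [h]

/-- **JOB TRS** -/
theorem trs : S_TRS := by
  classical
  intro K L _ _ σ n f J k z w hyp ε hε g hg
  by_cases hk : k ∈ J
  · rw [Finset.insert_eq_of_mem hk] at hg ⊢
    obtain ⟨z', w', h1, h2, h3, h4, h5, -⟩ := hyp ε hε g hg
    exact ⟨z', w', h1, h2, h3, h4, h5⟩
  · obtain ⟨y, hy, hyg⟩ := hg
    obtain ⟨z', w', -, h2, h3, h4, h5, h6⟩ := hyp (ε / 2) (half_pos hε)
      (bind₁ (fun l => if l = k then C (y k) else X l) g)
      ⟨Function.update y k (z k), by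
        intro l hl
        by_cases h : l = k
        · subst h
          rw [Function.update_self]
        · rw [Function.update_of_ne h]
          exact hy l (by
            rw [Finset.mem_insert]
            rintro (h' | h')
            · exact h h'
            · exact hl h'), by
        rw [eval_sub, Function.update_idem, Function.update_eq_self]
        exact hyg⟩
    rw [eval_sub] at h5
    obtain ⟨z'', w'', e1, e2, e3, e4, e5⟩ := h6 (ε / 2) (half_pos hε) g
      ⟨Function.update z' k (y k), by
        intro l hl
        rw [Finset.mem_singleton] at hl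
        rw [Function.update_of_ne hl], h5⟩
    refine ⟨z'', w'', e1, ?_, ?_, ?_, e5⟩
    · intro l hl
      rw [Finset.mem_insert, not_or] at hl
      rw [e2 l (by rw [Finset.mem_singleton]; exact hl.1), h2 l hl.2]
    · intro l
      have := norm_sub_le_norm_sub_add_norm_sub (σ (z'' l)) (σ (z' l)) (σ (z l))
      linarith [e3 l, h3 l]
    · have := norm_sub_le_norm_sub_add_norm_sub (σ w'') (σ w') (σ w)
      linarith

end Pool.Agent.Q65.TT
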